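import Mathlib

namespace Pool.Agent.Results.MP_72f8f6_ag.ConductorCounterexample

open MvPolynomial

/-- The defining ideal `J` of the Rees algebra with respect to the generators `g`: the kernel of
`R[y_1, ..., y_m] → R[t]`, `y_j ↦ g_j t`. -/
noncomputable def reesKer {R : Type*} [CommRing R] {m : ℕ} (g : Fin m → R) :
    Ideal (MvPolynomial (Fin m) R) :=
  RingHom.ker (aeval (fun j => Polynomial.C (g j) * (Polynomial.X : Polynomial R)) :
    MvPolynomial (Fin m) R →ₐ[R] Polynomial R)

/-- The ideal `L` generated by the linear forms `∑ a_i y_i` with `∑ a_i g_i = 0`. -/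
noncomputable def linIdeal {R : Type*} [CommRing R] {m : ℕ} (g : Fin m → R) :
    Ideal (MvPolynomial (Fin m) R) :=
  Ideal.span {p | ∃ a : Fin m → R, ∑ i, a i * g i = 0 ∧ p = ∑ i, C (a i) * X i}

/-- The conductor `C(I) = L :_R J = {r ∈ R : r J ⊆ L}` of `I = (g_1, ..., g_m)`. -/
noncomputable def conductor {R : Type*} [CommRing R] {m : ℕ} (g : Fin m → R) : Ideal R :=
  Ideal.comap (C : R →+* MvPolynomial (Fin m) R)
    (Submodule.colon (linIdeal g) (reesKer g : Set (MvPolynomial (Fin m) R)))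

lemma mem_conductor {R : Type*} [CommRing R] {m : ℕ} (g : Fin m → R) (r : R) :
    r ∈ conductor g ↔ ∀ p ∈ reesKer g, C r * p ∈ linIdeal g := by
  rw [conductor, Ideal.mem_comap, Submodule.mem_colon]
  rfl

/-- the ring of the example, inside the dual numbers over `ℤ × ℤ` -/
def S : Subring (DualNumber (ℤ × ℤ)) where
  carrier := {z | (2 : ℤ) ∣ z.fst.1 - z.fst.2}
  mul_mem' := by
    intro a b ha hb
    simp only [Set.mem_ofPred_eq, TrivSqZeroExt.fst_mul, Prod.fst_mul, Prod.snd_mul] at *
    have : a.fst.1 * b.fst.1 - a.fst.2 * b.fst.2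
        = (a.fst.1 - a.fst.2) * b.fst.1 + a.fst.2 * (b.fst.1 - b.fst.2) := by ring
    rw [this]
    exact dvd_add (ha.mul_right _) (hb.mul_left _)
  one_mem' := by simp
  add_mem' := by
    intro a b ha hb
    simp only [Set.mem_ofPred_eq, TrivSqZeroExt.fst_add, Prod.fst_add, Prod.snd_add] at *
    have : a.fst.1 + b.fst.1 - (a.fst.2 + b.fst.2)
        = (a.fst.1 - a.fst.2) + (b.fst.1 - b.fst.2) := by ring
    rw [this]
    exact dvd_add ha hb
  zero_mem' := by simp
  neg_mem' := by
    intro a ha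
    simp only [Set.mem_ofPred_eq, TrivSqZeroExt.fst_neg, Prod.fst_neg, Prod.snd_neg] at *
    have : -a.fst.1 - -a.fst.2 = -(a.fst.1 - a.fst.2) := by ring
    rw [this]
    exact ha.neg_right

/-- first coordinate -/
def pA : S →+* ℤ :=
  (RingHom.fst ℤ ℤ).comp ((TrivSqZeroExt.fstHom (ℤ × ℤ) (ℤ × ℤ) (ℤ × ℤ)).toRingHom.comp S.subtype)

/-- second coordinate -/
def pB : S →+* ℤ :=
  (RingHom.snd ℤ ℤ).comp ((TrivSqZeroExt.fstHom (ℤ × ℤ) (ℤ × ℤ) (ℤ × ℤ)).toRingHom.comp S.subtype)

lemma pA_apply (r : S) : pA r = r.1.fst.1 := rfl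
lemma pB_apply (r : S) : pB r = r.1.fst.2 := rfl

lemma pA_sub_pB (r : S) : (2 : ℤ) ∣ pA r - pB r := r.2

lemma S_ext {r s : S} (h1 : pA r = pA s) (h2 : pB r = pB s) (h3 : r.1.snd.1 = s.1.snd.1)
    (h4 : r.1.snd.2 = s.1.snd.2) : r = s := by
  apply Subtype.ext
  apply TrivSqZeroExt.ext
  · exact Prod.ext h1 h2
  · exact Prod.ext h3 h4

instance : IsNoetherianRing S := by
  have h1 : Module.Finite ℤ (DualNumber (ℤ × ℤ)) :=
    inferInstanceAs (Module.Finite ℤ ((ℤ × ℤ) × (ℤ × ℤ)))
  have h2 : IsNoetherian ℤ (DualNumber (ℤ × ℤ)) := isNoetherian_of_isNoetherianRing_of_finite ℤ _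
  let φ : S →ₗ[ℤ] DualNumber (ℤ × ℤ) := S.subtype.toAddMonoidHom.toIntLinearMap
  have h3 : IsNoetherian ℤ S := isNoetherian_of_injective φ Subtype.val_injective
  exact isNoetherian_of_tower ℤ h3

def u : S := ⟨TrivSqZeroExt.inr (1, 0), by simp [S]⟩
def v : S := ⟨TrivSqZeroExt.inr (0, 1), by simp [S]⟩
def x : S := ⟨TrivSqZeroExt.inl (0, 2), by
  change (2 : ℤ) ∣ (TrivSqZeroExt.inl ((0, 2) : ℤ × ℤ) : DualNumber (ℤ × ℤ)).fst.1 - _
  simp⟩

lemma snd1_mul (r s : S) : (r * s).1.snd.1 = pA r * s.1.snd.1 + pA s * r.1.snd.1 := by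
  simp [pA_apply, TrivSqZeroExt.snd_mul]
  ring

lemma snd2_mul (r s : S) : (r * s).1.snd.2 = pB r * s.1.snd.2 + pB s * r.1.snd.2 := by
  simp [pB_apply, TrivSqZeroExt.snd_mul]
  ring

lemma snd1_add (r s : S) : (r + s).1.snd.1 = r.1.snd.1 + s.1.snd.1 := by simp
lemma snd2_add (r s : S) : (r + s).1.snd.2 = r.1.snd.2 + s.1.snd.2 := by simp

@[simp] lemma pA_u : pA u = 0 := rfl
@[simp] lemma pB_u : pB u = 0 := rfl
@[simp] lemma pA_v : pA v = 0 := rfl
@[simp] lemma pB_v : pB v = 0 := rfl
@[simp] lemma pA_x : pA x = 0 := rfl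
@[simp] lemma pB_x : pB x = 2 := rfl
@[simp] lemma u1 : u.1.snd.1 = 1 := rfl
@[simp] lemma u2 : u.1.snd.2 = 0 := rfl
@[simp] lemma v1 : v.1.snd.1 = 0 := rfl
@[simp] lemma v2 : v.1.snd.2 = 1 := rfl
@[simp] lemma x1 : x.1.snd.1 = 0 := rfl
@[simp] lemma x2 : x.1.snd.2 = 0 := rfl

lemma uu : u * u = 0 := by
  apply S_ext
  · simp
  · simp
  · rw [snd1_mul]; simp
  · rw [snd2_mul]; simp
lemma uv : u * v = 0 := by
  apply S_ext
  · simp
  · simp
  · rw [snd1_mul]; simp
  · rw [snd2_mul]; simp
lemma vv : v * v = 0 := by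
  apply S_ext
  · simp
  · simp
  · rw [snd1_mul]; simp
  · rw [snd2_mul]; simp
lemma xu : x * u = 0 := by
  apply S_ext
  · simp
  · simp
  · rw [snd1_mul]; simp
  · rw [snd2_mul]; simp

/-- `2` is a non-zero-divisor -/
lemma two_reg (r : S) (h : r * 2 = 0) : r = 0 := by
  have h' : r + r = 0 := by rw [← mul_two]; exact h
  have e1 := congrArg pA h'
  have e2 := congrArg pB h'
  have e3 := congrArg (fun s : S => s.1.snd.1) h'
  have e4 := congrArg (fun s : S => s.1.snd.2) h'
  simp only [map_add, map_zero] at e1 e2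
  have e3' : r.1.snd.1 + r.1.snd.1 = 0 := by simpa using e3
  have e4' : r.1.snd.2 + r.1.snd.2 = 0 := by simpa using e4
  apply S_ext
  · rw [map_zero]; omega
  · rw [map_zero]; omega
  · change r.1.snd.1 = 0; omega
  · change r.1.snd.2 = 0; omega

lemma pow_two_reg (n : ℕ) (r : S) (h : r * 2 ^ n = 0) : r = 0 := by
  induction n with
  | zero => simpa using h
  | succ n ih =>
    apply ih
    apply two_reg
    rw [mul_assoc, ← pow_succ]
    exact h

lemma mem_I (r : S) : r ∈ Ideal.span (Set.range ![u, v]) ↔ pA r = 0 ∧ pB r = 0 := by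
  constructor
  · intro h
    have h1 : Ideal.span (Set.range ![u, v]) ≤ RingHom.ker pA := by
      rw [Ideal.span_le]
      rintro _ ⟨i, rfl⟩
      fin_cases i <;> rfl
    have h2 : Ideal.span (Set.range ![u, v]) ≤ RingHom.ker pB := by
      rw [Ideal.span_le]
      rintro _ ⟨i, rfl⟩
      fin_cases i <;> rfl
    exact ⟨h1 h, h2 h⟩
  · rintro ⟨h1, h2⟩
    have h3 : r = ((r.1.snd.1 : ℤ) : S) * u + ((r.1.snd.2 : ℤ) : S) * v := by
      apply S_ext
      · simp [h1]
      · simp [h2]
      · rw [snd1_add, snd1_mul, snd1_mul]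
        simp
      · rw [snd2_add, snd2_mul, snd2_mul]
        simp
    rw [h3]
    apply Ideal.add_mem
    · exact Ideal.mul_mem_left _ _ (Ideal.subset_span ⟨0, rfl⟩)
    · exact Ideal.mul_mem_left _ _ (Ideal.subset_span ⟨1, rfl⟩)

lemma I_sq : Ideal.span (Set.range ![u, v]) ^ 2 = ⊥ := by
  rw [pow_two, Ideal.span_mul_span']
  rw [Ideal.span_eq_bot]
  rintro _ ⟨_, ⟨i, rfl⟩, _, ⟨j, rfl⟩, rfl⟩
  fin_cases i <;> fin_cases j
  · exact uu
  · exact uv
  · change v * u = 0
    rw [mul_comm]; exact uv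
  · exact vv

lemma colon_pow (j : ℕ) (r : S) (h : r * 2 ∈ Ideal.span (Set.range ![u, v]) ^ j) :
    r ∈ Ideal.span (Set.range ![u, v]) ^ j := by
  rcases j with _ | _ | j
  · simp
  · rw [zero_add, pow_one, mem_I] at *
    obtain ⟨h1, h2⟩ := h
    rw [mul_two, map_add] at h1 h2
    constructor <;> omega
  · have hbot : Ideal.span (Set.range ![u, v]) ^ (j + 1 + 1) = ⊥ := by
      rw [add_assoc, add_comm, pow_add, one_add_one_eq_two, I_sq, Ideal.bot_mul]
    rw [hbot, Ideal.mem_bot] at h
    rw [hbot, Ideal.mem_bot]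
    exact two_reg r h

/-- the ideal `(y_1, y_2)^2` of `S[z, y_1, y_2]` -/
noncomputable def Y : Ideal (MvPolynomial (Fin 3) S) :=
  Ideal.span {X 1 * X 1, X 1 * X 2, X 2 * X 2}

lemma decomp (p : MvPolynomial (Fin 3) S) : ∃ a b c : Polynomial S,
    p - (Polynomial.aeval (X 0) a + Polynomial.aeval (X 0) b * X 1
      + Polynomial.aeval (X 0) c * X 2) ∈ Y := by
  induction p using MvPolynomial.induction_on with
  | C r =>
    refine ⟨Polynomial.C r, 0, 0, ?_⟩
    simp [MvPolynomial.algebraMap_eq]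
  | add p q hp hq =>
    obtain ⟨a, b, c, h⟩ := hp
    obtain ⟨a', b', c', h'⟩ := hq
    refine ⟨a + a', b + b', c + c', ?_⟩
    have := Y.add_mem h h'
    convert this using 1
    simp only [map_add]
    ring
  | mul_X p i hp =>
    obtain ⟨a, b, c, h⟩ := hp
    fin_cases i
    · refine ⟨a * Polynomial.X, b * Polynomial.X, c * Polynomial.X, ?_⟩
      have := Y.mul_mem_right (X 0) h
      convert this using 1
      simp only [map_mul, Polynomial.aeval_X]
      change p * X 0 - _ = _
      ring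
    · refine ⟨0, a, 0, ?_⟩
      have h1 := Y.mul_mem_right (X 1) h
      have h2 : (Polynomial.aeval (X 0 : MvPolynomial (Fin 3) S) b) * (X 1 * X 1) ∈ Y :=
        Y.mul_mem_left _ (Ideal.subset_span (by simp))
      have h3 : (Polynomial.aeval (X 0 : MvPolynomial (Fin 3) S) c) * (X 1 * X 2) ∈ Y :=
        Y.mul_mem_left _ (Ideal.subset_span (by simp))
      have := Y.add_mem (Y.add_mem h1 h2) h3
      convert this using 1
      simp only [map_zero]
      change p * X 1 - _ = _
      ring
    · refine ⟨0, 0, a, ?_⟩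
      have h1 := Y.mul_mem_right (X 2) h
      have h2 : (Polynomial.aeval (X 0 : MvPolynomial (Fin 3) S) b) * (X 1 * X 2) ∈ Y :=
        Y.mul_mem_left _ (Ideal.subset_span (by simp))
      have h3 : (Polynomial.aeval (X 0 : MvPolynomial (Fin 3) S) c) * (X 2 * X 2) ∈ Y :=
        Y.mul_mem_left _ (Ideal.subset_span (by simp))
      have := Y.add_mem (Y.add_mem h1 h2) h3
      convert this using 1
      simp only [map_zero]
      change p * X 2 - _ = _
      ring

/-- generators of `(I, f)` -/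
def g' : Fin 3 → S := Fin.cons 2 ![u, v]

lemma g'0 : g' 0 = 2 := rfl
lemma g'1 : g' 1 = u := rfl
lemma g'2 : g' 2 = v := rfl

lemma lin_mem (a0 a1 a2 : S) (h : a0 * 2 + a1 * u + a2 * v = 0) :
    (C a0 * X 0 + C a1 * X 1 + C a2 * X 2 : MvPolynomial (Fin 3) S) ∈ linIdeal g' := by
  apply Ideal.subset_span
  refine ⟨![a0, a1, a2], ?_, ?_⟩
  · rw [Fin.sum_univ_three, g'0, g'1, g'2]
    exact h
  · rw [Fin.sum_univ_three]
    rfl

lemma x_mul_Y (p : MvPolynomial (Fin 3) S) (hp : p ∈ Y) : C x * p ∈ linIdeal g' := by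
  have key : Y ≤ Submodule.colon (linIdeal g') ({C x} : Set (MvPolynomial (Fin 3) S)) := by
    unfold Y
    rw [Ideal.span_le]
    have hxu : (C x * X 1 : MvPolynomial (Fin 3) S) ∈ linIdeal g' := by
      have := lin_mem 0 x 0 (by rw [zero_mul, zero_mul, xu]; simp)
      simpa using this
    have hvy : (C v * X 2 : MvPolynomial (Fin 3) S) ∈ linIdeal g' := by
      have := lin_mem 0 0 v (by rw [zero_mul, zero_mul, vv]; simp)
      simpa using this
    have hyv : (C (x - 2) * X 2 : MvPolynomial (Fin 3) S) ∈ linIdeal g' := by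
      have h0 : (x - 2) * v = 0 := by
        have hxv : x * v = 2 * v := by
          apply S_ext
          · simp
          · simp
          · rw [snd1_mul, snd1_mul]; simp
          · rw [snd2_mul, snd2_mul, map_ofNat]; simp
        rw [sub_mul, hxv, sub_self]
      have := lin_mem 0 0 (x - 2) (by rw [zero_mul, zero_mul, h0]; simp)
      simpa using this
    have hvz : (C (-v) * X 0 + C 0 * X 1 + C 2 * X 2 : MvPolynomial (Fin 3) S) ∈ linIdeal g' :=
      lin_mem (-v) 0 2 (by ring)
    rintro q (rfl | rfl | rfl)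
    · change _ ∈ Submodule.colon _ _
      rw [Submodule.mem_colon_singleton, smul_eq_mul]
      have := (linIdeal g').mul_mem_left (X 1) hxu
      convert this using 1
      ring
    · change _ ∈ Submodule.colon _ _
      rw [Submodule.mem_colon_singleton, smul_eq_mul]
      have := (linIdeal g').mul_mem_left (X 2) hxu
      convert this using 1
      ring
    · change _ ∈ Submodule.colon _ _
      rw [Submodule.mem_colon_singleton, smul_eq_mul]
      have h1 := (linIdeal g').mul_mem_left (X 2) hyv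
      have h2 := (linIdeal g').mul_mem_left (X 2) hvz
      have h3 := (linIdeal g').mul_mem_left (X 0) hvy
      have := (linIdeal g').add_mem ((linIdeal g').add_mem h1 h2) h3
      convert this using 1
      rw [map_sub, map_neg, map_zero]
      ring
  have := key hp
  rw [Submodule.mem_colon_singleton, smul_eq_mul] at this
  rwa [mul_comm]

lemma x_mem : x ∈ conductor g' := by
  rw [mem_conductor]
  intro p hp
  obtain ⟨a, b, c, habc⟩ := decomp p
  set q := (Polynomial.aeval (X 0 : MvPolynomial (Fin 3) S) a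
    + Polynomial.aeval (X 0 : MvPolynomial (Fin 3) S) b * X 1
    + Polynomial.aeval (X 0 : MvPolynomial (Fin 3) S) c * X 2) with hq
  -- the Rees map
  set φ : MvPolynomial (Fin 3) S →ₐ[S] Polynomial S :=
    aeval (fun j => Polynomial.C (g' j) * (Polynomial.X : Polynomial S)) with hφ
  have hp0 : φ p = 0 := hp
  have hY : Y ≤ RingHom.ker φ := by
    unfold Y
    rw [Ideal.span_le]
    rintro r (rfl | rfl | rfl)
    · change φ (X 1 * X 1) = 0
      rw [map_mul, hφ, aeval_X, g'1]
      have : Polynomial.C u * Polynomial.X * (Polynomial.C u * Polynomial.X)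
          = Polynomial.C (u * u) * (Polynomial.X * Polynomial.X) := by
        rw [map_mul]; ring
      rw [this, uu, map_zero, zero_mul]
    · change φ (X 1 * X 2) = 0
      rw [map_mul, hφ, aeval_X, aeval_X, g'1, g'2]
      have : Polynomial.C u * Polynomial.X * (Polynomial.C v * Polynomial.X)
          = Polynomial.C (u * v) * (Polynomial.X * Polynomial.X) := by
        rw [map_mul]; ring
      rw [this, uv, map_zero, zero_mul]
    · change φ (X 2 * X 2) = 0
      rw [map_mul, hφ, aeval_X, g'2]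
      have : Polynomial.C v * Polynomial.X * (Polynomial.C v * Polynomial.X)
          = Polynomial.C (v * v) * (Polynomial.X * Polynomial.X) := by
        rw [map_mul]; ring
      rw [this, vv, map_zero, zero_mul]
  have hq0 : φ q = 0 := by
    have h1 : φ (p - q) = 0 := hY habc
    rw [map_sub, hp0, zero_sub, neg_eq_zero] at h1
    exact h1
  have hcomp : ∀ e : Polynomial S, φ (Polynomial.aeval (X 0 : MvPolynomial (Fin 3) S) e)
      = e.comp (Polynomial.C 2 * Polynomial.X) := by
    intro e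
    rw [← Polynomial.aeval_algHom_apply, hφ, aeval_X, g'0, Polynomial.comp_eq_aeval]
  have hq1 : a.comp (Polynomial.C 2 * Polynomial.X)
      + b.comp (Polynomial.C 2 * Polynomial.X) * (Polynomial.C u * Polynomial.X)
      + c.comp (Polynomial.C 2 * Polynomial.X) * (Polynomial.C v * Polynomial.X) = 0 := by
    rw [← hq0, hq, map_add, map_add, map_mul, map_mul, hcomp, hcomp, hcomp, hφ, aeval_X,
      aeval_X, g'1, g'2]
  have ha0 : a.coeff 0 = 0 := by
    have := congrArg (fun e : Polynomial S => e.coeff 0) hq1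
    simp only [Polynomial.coeff_add, Polynomial.comp_C_mul_X_coeff, pow_zero, mul_one,
      Polynomial.coeff_zero] at this
    rw [← mul_assoc, ← mul_assoc, Polynomial.coeff_mul_X_zero, Polynomial.coeff_mul_X_zero] at this
    simpa using this
  have hrel : ∀ n, a.coeff (n + 1) * 2 + b.coeff n * u + c.coeff n * v = 0 := by
    intro n
    have := congrArg (fun e : Polynomial S => e.coeff (n + 1)) hq1
    simp only [Polynomial.coeff_add, Polynomial.comp_C_mul_X_coeff, Polynomial.coeff_zero] at this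
    rw [← mul_assoc, ← mul_assoc, Polynomial.coeff_mul_X, Polynomial.coeff_mul_X,
      Polynomial.coeff_mul_C, Polynomial.coeff_mul_C, Polynomial.comp_C_mul_X_coeff,
      Polynomial.comp_C_mul_X_coeff] at this
    apply pow_two_reg n
    rw [← this]
    ring
  -- `q` lies in the linear ideal
  have hqL : q ∈ linIdeal g' := by
    set N := max (a.natDegree) (max b.natDegree c.natDegree) + 1 with hN
    have e1 : Polynomial.aeval (X 0 : MvPolynomial (Fin 3) S) a
        = ∑ i ∈ Finset.range N, a.coeff (i + 1) • (X 0 : MvPolynomial (Fin 3) S) ^ (i + 1) := by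
      rw [Polynomial.aeval_eq_sum_range' (n := N + 1) (by omega), Finset.sum_range_succ', ha0,
        zero_smul, add_zero]
    have e2 : Polynomial.aeval (X 0 : MvPolynomial (Fin 3) S) b
        = ∑ i ∈ Finset.range N, b.coeff i • (X 0 : MvPolynomial (Fin 3) S) ^ i := by
      rw [Polynomial.aeval_eq_sum_range' (n := N) (by omega)]
    have e3 : Polynomial.aeval (X 0 : MvPolynomial (Fin 3) S) c
        = ∑ i ∈ Finset.range N, c.coeff i • (X 0 : MvPolynomial (Fin 3) S) ^ i := by
      rw [Polynomial.aeval_eq_sum_range' (n := N) (by omega)]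
    have e4 : q = ∑ i ∈ Finset.range N, X 0 ^ i *
        (C (a.coeff (i + 1)) * X 0 + C (b.coeff i) * X 1 + C (c.coeff i) * X 2) := by
      rw [hq, e1, e2, e3, Finset.sum_mul, Finset.sum_mul, ← Finset.sum_add_distrib,
        ← Finset.sum_add_distrib]
      apply Finset.sum_congr rfl
      intro i _
      rw [smul_eq_C_mul, smul_eq_C_mul, smul_eq_C_mul]
      ring
    rw [e4]
    apply Ideal.sum_mem
    intro i _
    exact Ideal.mul_mem_left _ _ (lin_mem _ _ _ (hrel i))
  have : C x * p = C x * (p - q) + C x * q := by ring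
  rw [this]
  exact (linIdeal g').add_mem (x_mul_Y _ habc) (Ideal.mul_mem_left _ _ hqL)

lemma pA_of_mem (c : S) (hc : c ∈ conductor ![u, v]) : pA c = 0 := by
  rw [mem_conductor] at hc
  have h1 : (X 0 * X 0 : MvPolynomial (Fin 2) S) ∈ reesKer ![u, v] := by
    change (aeval (fun j => Polynomial.C (![u, v] j) * (Polynomial.X : Polynomial S)) :
      MvPolynomial (Fin 2) S →ₐ[S] Polynomial S) (X 0 * X 0) = 0
    rw [map_mul, aeval_X]
    have : Polynomial.C (![u, v] 0) * Polynomial.X * (Polynomial.C (![u, v] 0) * Polynomial.X)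
        = Polynomial.C (u * u) * (Polynomial.X * Polynomial.X) := by
      rw [map_mul]
      change Polynomial.C u * Polynomial.X * (Polynomial.C u * Polynomial.X) = _
      ring
    rw [this, uu, map_zero, zero_mul]
  have h2 := hc _ h1
  have h3 : linIdeal ![u, v] ≤ RingHom.ker (eval₂Hom pA ![1, 0]) := by
    unfold linIdeal
    rw [Ideal.span_le]
    rintro _ ⟨a, ha, rfl⟩
    change (eval₂Hom pA ![1, 0]) _ = 0
    rw [Fin.sum_univ_two] at *
    have h4 := congrArg (fun s : S => s.1.snd.1) ha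
    have h5 : (a 0 * u + a 1 * v).1.snd.1 = 0 := h4
    rw [snd1_add, snd1_mul, snd1_mul] at h5
    simp at h5
    simp [h5]
  have h4 : (eval₂Hom pA ![1, 0]) (C c * (X 0 * X 0)) = 0 := h3 h2
  simpa using h4

lemma pB_of_mem (c : S) (hc : c ∈ conductor ![u, v]) : pB c = 0 := by
  rw [mem_conductor] at hc
  have h1 : (X 1 * X 1 : MvPolynomial (Fin 2) S) ∈ reesKer ![u, v] := by
    change (aeval (fun j => Polynomial.C (![u, v] j) * (Polynomial.X : Polynomial S)) :
      MvPolynomial (Fin 2) S →ₐ[S] Polynomial S) (X 1 * X 1) = 0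
    rw [map_mul, aeval_X]
    have : Polynomial.C (![u, v] 1) * Polynomial.X * (Polynomial.C (![u, v] 1) * Polynomial.X)
        = Polynomial.C (v * v) * (Polynomial.X * Polynomial.X) := by
      rw [map_mul]
      change Polynomial.C v * Polynomial.X * (Polynomial.C v * Polynomial.X) = _
      ring
    rw [this, vv, map_zero, zero_mul]
  have h2 := hc _ h1
  have h3 : linIdeal ![u, v] ≤ RingHom.ker (eval₂Hom pB ![0, 1]) := by
    unfold linIdeal
    rw [Ideal.span_le]
    rintro _ ⟨a, ha, rfl⟩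
    change (eval₂Hom pB ![0, 1]) _ = 0
    rw [Fin.sum_univ_two] at *
    have h4 := congrArg (fun s : S => s.1.snd.2) ha
    have h5 : (a 0 * u + a 1 * v).1.snd.2 = 0 := h4
    rw [snd2_add, snd2_mul, snd2_mul] at h5
    simp at h5
    simp [h5]
  have h4 : (eval₂Hom pB ![0, 1]) (C c * (X 1 * X 1)) = 0 := h3 h2
  simpa using h4

lemma x_not_mem : x ∉ conductor ![u, v] ⊔ Ideal.span {2} := by
  intro h
  rw [Submodule.mem_sup] at h
  obtain ⟨c, hc, s, hs, hcs⟩ := h
  rw [Ideal.mem_span_singleton'] at hs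
  obtain ⟨t, rfl⟩ := hs
  have hA := congrArg pA hcs
  have hB := congrArg pB hcs
  rw [map_add, map_mul, pA_of_mem c hc, map_ofNat, pA_x] at hA
  rw [map_add, map_mul, pB_of_mem c hc, map_ofNat, pB_x] at hB
  have := pA_sub_pB t
  omega

/-- There are a Noetherian ring `R`, an ideal `I = (g_1, ..., g_m)` and `f ∈ R` with
`I^j : f = I^j` for all `j ≥ 0` such that `C((I, f))` is not contained in `(C(I), f)`. -/
theorem result : ∃ (R : Type) (_ : CommRing R) (_ : IsNoetherianRing R) (m : ℕ) (g : Fin m → R)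
    (f : R), (∀ (j : ℕ) (r : R), r * f ∈ Ideal.span (Set.range g) ^ j →
      r ∈ Ideal.span (Set.range g) ^ j) ∧
    ¬ conductor (Fin.cons f g : Fin (m + 1) → R) ≤ conductor g ⊔ Ideal.span {f} := by
  refine ⟨S, inferInstance, inferInstance, 2, ![u, v], 2, colon_pow, ?_⟩
  intro h
  exact x_not_mem (h x_mem)

end Pool.Agent.Results.MP_72f8f6_ag.ConductorCounterexample
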